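import Pool.Agent.Common_PNT.Kernel

/-! The Fejer kernel argument: if the Laplace transform of a bounded function extends continuously
to the closed right half plane, its Fejer means tend to zero. -/

open MeasureTheory Set Filter Topology Real

namespace Pool.Agent.Common_PNT

lemma fejer_swap {f : ℝ → ℝ} (hf : Measurable f) {C : ℝ} (hC : ∀ u, |f u| ≤ C)
    {H : ℂ → ℂ}
    (hH : ∀ s : ℂ, 0 < s.re → ∫ u in Ioi (0:ℝ), (f u : ℂ) * Complex.exp (-s * u) = H s)
    {ε : ℝ} (hε : 0 < ε) (y : ℝ) :
    ∫ u in Ioi (0:ℝ), (f u : ℂ) * Complex.exp (-ε * u) * (K (y - u) : ℂ) =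
      ∫ t in (-1:ℝ)..1, ((1 - |t| : ℝ) : ℂ) * Complex.exp (Complex.I * t * y) *
        H (ε + Complex.I * t) := by
  have hC0 : 0 ≤ C := (abs_nonneg _).trans (hC 0)
  have h1 : ∫ u in Ioi (0:ℝ), (f u : ℂ) * Complex.exp (-ε * u) * (K (y - u) : ℂ) =
      ∫ u in Ioi (0:ℝ), ∫ t in Ioc (-1:ℝ) 1, (f u : ℂ) * Complex.exp (-ε * u) *
        (((1 - |t| : ℝ) : ℂ) * Complex.exp (Complex.I * t * (y - u : ℝ))) := by
    refine integral_congr_ae ?_
    have hne : ∀ᵐ u ∂(volume.restrict (Ioi (0:ℝ))), u ≠ y := by
      refine ae_restrict_of_ae ?_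
      simp [ae_iff]
    filter_upwards [hne] with u hu
    rw [integral_const_mul, ← intervalIntegral.integral_of_le (by norm_num),
      integral_triangle (sub_ne_zero.mpr hu.symm)]
  rw [h1, integral_integral_swap]
  · rw [← intervalIntegral.integral_of_le (by norm_num)]
    refine intervalIntegral.integral_congr fun t _ => ?_
    have hre : 0 < ((ε : ℂ) + Complex.I * t).re := by simp [hε]
    rw [← hH _ hre, ← integral_const_mul]
    refine integral_congr_ae (Eventually.of_forall fun u => ?_)
    simp only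
    have e1 : Complex.exp (Complex.I * t * (y - u : ℝ)) =
        Complex.exp (Complex.I * t * y) * Complex.exp (-(Complex.I * t * u)) := by
      rw [← Complex.exp_add]; congr 1; push_cast; ring
    have e2 : Complex.exp (-(ε + Complex.I * t) * u) =
        Complex.exp (-ε * u) * Complex.exp (-(Complex.I * t * u)) := by
      rw [← Complex.exp_add]; congr 1; ring
    rw [e1, e2]
    ring
  · -- integrability on the product
    have hb1 : Integrable (fun u : ℝ => C * Real.exp (-ε * u)) (volume.restrict (Ioi 0)) := by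
      have := integrableOn_exp_mul_Ioi (a := -ε) (by linarith) 0
      exact this.const_mul C
    have hb2 : Integrable (fun _ : ℝ => (1:ℝ)) (volume.restrict (Ioc (-1:ℝ) 1)) := by
      simp
    refine Integrable.mono' (hb1.mul_prod hb2) ?_ ?_
    · apply Measurable.aestronglyMeasurable
      simp only [Function.uncurry_def]
      fun_prop
    · refine (Measure.ae_prod_iff_ae_ae ?_).mpr ?_ |>.mono fun z hz => hz
      · apply measurableSet_le
        · simp only [Function.uncurry_def]
          fun_prop
        · fun_prop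
      · refine Eventually.of_forall fun u => ?_
        filter_upwards [ae_restrict_mem measurableSet_Ioc] with t ht
        simp only [Function.uncurry_apply_pair, norm_mul, Complex.norm_real, mul_one]
        have n1 : ‖Complex.exp (-ε * u)‖ = Real.exp (-ε * u) := by
          rw [Complex.norm_exp]; simp
        have n2 : ‖Complex.exp (Complex.I * t * (y - u : ℝ))‖ = 1 := by
          rw [Complex.norm_exp]; simp
        rw [n1, n2]
        have h3 : ‖(1 - |t| : ℝ)‖ ≤ 1 := by
          rw [Real.norm_eq_abs, abs_le]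
          have := abs_nonneg t
          have h4 : |t| ≤ 1 := abs_le.mpr ⟨ht.1.le, ht.2⟩
          constructor <;> linarith
        have h5 : ‖f u‖ ≤ C := hC u
        have h6 := Real.exp_pos (-ε * u)
        calc ‖f u‖ * Real.exp (-ε * u) * (‖(1 - |t| : ℝ)‖ * 1)
            ≤ C * Real.exp (-ε * u) * (1 * 1) := by gcongr
          _ = C * Real.exp (-ε * u) := by ring

lemma fejer_limit {f : ℝ → ℝ} (hf : Measurable f) {C : ℝ} (hC : ∀ u, |f u| ≤ C)
    {H : ℂ → ℂ} (hHc : ContinuousOn H {s | 0 ≤ s.re})
    (hH : ∀ s : ℂ, 0 < s.re → ∫ u in Ioi (0:ℝ), (f u : ℂ) * Complex.exp (-s * u) = H s)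
    (y : ℝ) :
    ∫ u in Ioi (0:ℝ), (f u : ℂ) * (K (y - u) : ℂ) =
      ∫ t in (-1:ℝ)..1, ((1 - |t| : ℝ) : ℂ) * Complex.exp (Complex.I * t * y) *
        H (Complex.I * t) := by
  have hC0 : 0 ≤ C := (abs_nonneg _).trans (hC 0)
  set e : ℕ → ℝ := fun n => 1 / ((n:ℝ) + 1) with he
  have he0 : ∀ n, 0 < e n := fun n => by positivity
  have he1 : ∀ n, e n ≤ 1 := fun n => by
    rw [he]; simp only; rw [div_le_one (by positivity)]
    have : (0:ℝ) ≤ n := Nat.cast_nonneg n
    linarith
  have helim : Tendsto e atTop (𝓝 0) := tendsto_one_div_add_atTop_nhds_zero_nat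
  -- left side
  have hL : Tendsto (fun n => ∫ u in Ioi (0:ℝ), (f u : ℂ) * Complex.exp (-(e n : ℝ) * u) *
      (K (y - u) : ℂ)) atTop (𝓝 (∫ u in Ioi (0:ℝ), (f u : ℂ) * (K (y - u) : ℂ))) := by
    refine tendsto_integral_of_dominated_convergence (fun u => C * K (y - u)) ?_ ?_ ?_ ?_
    · intro n
      apply Measurable.aestronglyMeasurable
      have := measurable_K
      fun_prop
    · have : Integrable (fun u => C * K (y - u)) := by
        exact ((integrable_K.comp_sub_left y).const_mul C)
      exact this.restrict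
    · intro n
      filter_upwards [ae_restrict_mem measurableSet_Ioi] with u hu
      rw [norm_mul, norm_mul, Complex.norm_real, Complex.norm_real, Real.norm_of_nonneg (K_nonneg _)]
      have n1 : ‖Complex.exp (-(e n : ℝ) * u)‖ ≤ 1 := by
        rw [Complex.norm_exp]
        simp only [Complex.mul_re, Complex.neg_re, Complex.ofReal_re, Complex.neg_im,
          Complex.ofReal_im, neg_zero, mul_zero, sub_zero, Real.exp_le_one_iff]
        have : 0 < u := hu
        have := he0 n
        nlinarith
      have h5 : ‖f u‖ ≤ C := hC u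
      have := K_nonneg (y - u)
      calc ‖f u‖ * ‖Complex.exp (-(e n : ℝ) * u)‖ * K (y - u) ≤ C * 1 * K (y - u) := by gcongr
        _ = C * K (y - u) := by ring
    · refine Eventually.of_forall fun u => ?_
      have h1 : Tendsto (fun n => Complex.exp (-(e n : ℝ) * u)) atTop (𝓝 1) := by
        have h2 : Tendsto (fun n => (-(e n : ℝ) : ℂ) * u) atTop (𝓝 0) := by
          have h3 : Tendsto (fun n => ((e n : ℝ) : ℂ)) atTop (𝓝 ((0:ℝ):ℂ)) :=
            (Complex.continuous_ofReal.tendsto 0).comp helim
          simpa using (h3.neg.mul_const (u:ℂ))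
        simpa [Function.comp_def] using (Complex.continuous_exp.tendsto 0).comp h2
      have := (h1.const_mul (f u : ℂ)).mul_const (K (y - u) : ℂ)
      simpa using this
  -- right side
  have hcomp : IsCompact ((fun p : ℝ × ℝ => ((p.1 : ℂ) + Complex.I * p.2)) '' (Icc 0 1 ×ˢ Icc (-1) 1)) := by
    apply IsCompact.image (isCompact_Icc.prod isCompact_Icc)
    fun_prop
  obtain ⟨B, hB⟩ := hcomp.exists_bound_of_continuousOn (f := H) (hHc.mono (by
    rintro _ ⟨⟨a, b⟩, ⟨ha, _⟩, rfl⟩
    simpa using ha.1))
  have hR : Tendsto (fun n => ∫ t in (-1:ℝ)..1, ((1 - |t| : ℝ) : ℂ) *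
      Complex.exp (Complex.I * t * y) * H ((e n : ℝ) + Complex.I * t)) atTop
      (𝓝 (∫ t in (-1:ℝ)..1, ((1 - |t| : ℝ) : ℂ) * Complex.exp (Complex.I * t * y) *
        H (Complex.I * t))) := by
    refine intervalIntegral.tendsto_integral_filter_of_dominated_convergence (fun _ => B) ?_ ?_ ?_ ?_
    · refine Eventually.of_forall fun n => ?_
      apply Continuous.aestronglyMeasurable
      have hcH : Continuous fun t : ℝ => H ((e n : ℝ) + Complex.I * t) := by
        have : ContinuousOn H {s | 0 ≤ s.re} := hHc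
        rw [← continuousOn_univ]
        refine this.comp (by fun_prop) ?_
        intro t _
        simpa using (he0 n).le
      exact Continuous.mul (by fun_prop) hcH
    · refine Eventually.of_forall fun n => ?_
      refine Eventually.of_forall fun t ht => ?_
      rw [uIoc_of_le (by norm_num)] at ht
      have hb : ‖H ((e n : ℝ) + Complex.I * t)‖ ≤ B :=
        hB _ ⟨(e n, t), ⟨⟨(he0 n).le, he1 n⟩, ⟨ht.1.le, ht.2⟩⟩, rfl⟩
      rw [norm_mul, norm_mul, Complex.norm_real]
      have n2 : ‖Complex.exp (Complex.I * t * y)‖ = 1 := by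
        rw [Complex.norm_exp]; simp
      have h3 : ‖(1 - |t| : ℝ)‖ ≤ 1 := by
        rw [Real.norm_eq_abs, abs_le]
        have := abs_nonneg t
        have h4 : |t| ≤ 1 := abs_le.mpr ⟨ht.1.le, ht.2⟩
        constructor <;> linarith
      rw [n2]
      calc ‖(1 - |t| : ℝ)‖ * 1 * ‖H ((e n : ℝ) + Complex.I * t)‖ ≤ 1 * 1 * B := by gcongr
        _ = B := by ring
    · simp
    · refine Eventually.of_forall fun t _ => ?_
      have h1 : Tendsto (fun n => H ((e n : ℝ) + Complex.I * t)) atTop (𝓝 (H (Complex.I * t))) := by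
        have hcw : ContinuousWithinAt H {s | 0 ≤ s.re} (Complex.I * t) := hHc _ (by simp)
        refine hcw.tendsto.comp (tendsto_nhdsWithin_iff.mpr ⟨?_, ?_⟩)
        · have h3 : Tendsto (fun n => ((e n : ℝ) : ℂ)) atTop (𝓝 ((0:ℝ):ℂ)) :=
            (Complex.continuous_ofReal.tendsto 0).comp helim
          simpa using h3.add_const (Complex.I * t)
        · refine Eventually.of_forall fun n => ?_
          simpa using (he0 n).le
      exact h1.const_mul _
  refine tendsto_nhds_unique hL ?_
  refine hR.congr fun n => ?_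
  exact (fejer_swap hf hC hH (he0 n) y).symm

/-- The Fejer means tend to zero. -/
theorem fejer_tendsto {f : ℝ → ℝ} (hf : Measurable f) {C : ℝ} (hC : ∀ u, |f u| ≤ C)
    {H : ℂ → ℂ} (hHc : ContinuousOn H {s | 0 ≤ s.re})
    (hH : ∀ s : ℂ, 0 < s.re → ∫ u in Ioi (0:ℝ), (f u : ℂ) * Complex.exp (-s * u) = H s) :
    Tendsto (fun y : ℝ => ∫ u in Ioi (0:ℝ), f u * K (y - u)) atTop (𝓝 0) := by
  have key : Tendsto (fun y : ℝ => ∫ t in (-1:ℝ)..1, ((1 - |t| : ℝ) : ℂ) *
      Complex.exp (Complex.I * t * y) * H (Complex.I * t)) atTop (𝓝 0) := by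
    have hRL := Real.tendsto_integral_exp_smul_cocompact
      (fun t : ℝ => (Ioc (-1:ℝ) 1).indicator (fun t : ℝ => ((1 - |t| : ℝ) : ℂ) * H (Complex.I * t)) t)
    have hw : Tendsto (fun y : ℝ => -y / (2 * π)) atTop (cocompact ℝ) := by
      have : Tendsto (fun y : ℝ => -y / (2 * π)) atTop atBot := by
        apply Tendsto.atBot_div_const (by positivity)
        exact tendsto_neg_atTop_atBot
      exact this.mono_right atBot_le_cocompact
    refine (hRL.comp hw).congr fun y => ?_
    simp only [Function.comp_apply]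
    rw [intervalIntegral.integral_of_le (by norm_num), ← integral_indicator measurableSet_Ioc]
    refine integral_congr_ae (Eventually.of_forall fun t => ?_)
    simp only
    by_cases ht : t ∈ Ioc (-1:ℝ) 1
    · rw [indicator_of_mem ht, indicator_of_mem ht, Circle.smul_def, Real.fourierChar_apply,
        smul_eq_mul]
      have : ((2 * π * -(t * (-y / (2 * π))) : ℝ) : ℂ) * Complex.I = Complex.I * t * y := by
        have hpi : (π : ℂ) ≠ 0 := by exact_mod_cast Real.pi_ne_zero
        push_cast
        field_simp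
      rw [this]
      ring
    · rw [indicator_of_notMem ht, indicator_of_notMem ht, smul_zero]
  have key2 : Tendsto (fun y : ℝ => ((∫ u in Ioi (0:ℝ), f u * K (y - u) : ℝ) : ℂ)) atTop (𝓝 0) := by
    refine key.congr fun y => ?_
    rw [← fejer_limit hf hC hHc hH y, ← integral_complex_ofReal]
    simp
  have := (Complex.continuous_re.tendsto 0).comp key2
  simpa [Function.comp_def] using this

end Pool.Agent.Common_PNT
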