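import Mathlib

/-! The Fejer kernel on the line, and the Fourier identity for the triangle function. -/

open MeasureTheory Set Filter Topology Real

namespace Pool.Agent.Common_PNT

/-- The Fejer type kernel. -/
noncomputable def K (v : ℝ) : ℝ := 2 * (1 - Real.cos v) / v ^ 2

lemma K_nonneg (v : ℝ) : 0 ≤ K v := by
  unfold K
  have := Real.cos_le_one v
  apply div_nonneg _ (sq_nonneg v)
  linarith

lemma K_neg (v : ℝ) : K (-v) = K v := by
  unfold K; simp

lemma K_le_one (v : ℝ) : K v ≤ 1 := by
  unfold K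
  rcases eq_or_ne v 0 with rfl | hv
  · simp
  · rw [div_le_one (by positivity)]
    have := Real.one_sub_sq_div_two_le_cos (x := v)
    linarith

lemma K_mul_sq_le (v : ℝ) : K v * v ^ 2 ≤ 4 := by
  unfold K
  rcases eq_or_ne v 0 with rfl | hv
  · simp
  · rw [div_mul_cancel₀ _ (by positivity)]
    have := Real.neg_one_le_cos v
    linarith

lemma K_le (v : ℝ) : K v ≤ 5 * (1 + v ^ 2)⁻¹ := by
  rw [← div_eq_mul_inv, le_div_iff₀ (by positivity)]
  have h1 := K_le_one v
  have h2 := K_mul_sq_le v
  nlinarith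

lemma measurable_K : Measurable K := by
  unfold K
  fun_prop

lemma integrable_K : Integrable K := by
  refine Integrable.mono' (integrable_inv_one_add_sq.const_mul 5) measurable_K.aestronglyMeasurable ?_
  filter_upwards with v
  rw [Real.norm_of_nonneg (K_nonneg v)]
  exact K_le v

lemma K_lower {v : ℝ} (hv0 : v ≠ 0) (hv : |v| ≤ π) : 4 / π ^ 2 ≤ K v := by
  unfold K
  have h := Real.cos_le_one_sub_mul_cos_sq hv
  rw [le_div_iff₀ (by positivity)]
  have : 4 / π ^ 2 * v ^ 2 = 2 * (2 / π ^ 2 * v ^ 2) := by ring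
  rw [this]
  linarith

/-- total mass -/
noncomputable def M : ℝ := ∫ v, K v

lemma M_pos : 0 < M := by
  unfold M
  rw [integral_pos_iff_support_of_nonneg K_nonneg integrable_K]
  have hsub : Ioo (0:ℝ) 1 ⊆ Function.support K := by
    intro v hv
    have h1 : 4 / π ^ 2 ≤ K v := K_lower hv.1.ne' (by
      rw [abs_of_pos hv.1]; linarith [hv.2, Real.pi_gt_three])
    have h2 : 0 < 4 / π ^ 2 := by positivity
    simp only [Function.mem_support, ne_eq]
    linarith
  refine lt_of_lt_of_le ?_ (measure_mono hsub)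
  simp

/-- Fourier identity (real form). -/
lemma integral_cos_mul {v : ℝ} (hv : v ≠ 0) :
    ∫ t in (0:ℝ)..1, (1 - t) * Real.cos (t * v) = (1 - Real.cos v) / v ^ 2 := by
  have hderiv : ∀ t ∈ uIcc (0:ℝ) 1, HasDerivAt
      (fun t : ℝ => (1 - t) * Real.sin (t * v) / v - Real.cos (t * v) / v ^ 2)
      ((1 - t) * Real.cos (t * v)) t := by
    intro t _
    have h1 : HasDerivAt (fun t : ℝ => t * v) v t := by
      simpa using (hasDerivAt_id t).mul_const v
    have h2 : HasDerivAt (fun t : ℝ => 1 - t) (-1) t := by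
      simpa using (hasDerivAt_id t).const_sub 1
    have h3 := ((h2.mul h1.sin).div_const v).sub (h1.cos.div_const (v ^ 2))
    refine h3.congr_deriv ?_
    field_simp
    ring
  rw [intervalIntegral.integral_eq_sub_of_hasDerivAt hderiv]
  · simp
    ring
  · apply Continuous.intervalIntegrable
    fun_prop

lemma integral_triangle {v : ℝ} (hv : v ≠ 0) :
    ∫ t in (-1:ℝ)..1, ((1 - |t| : ℝ) : ℂ) * Complex.exp (Complex.I * t * v) = (K v : ℂ) := by
  have hc : Continuous fun t : ℝ => ((1 - |t| : ℝ) : ℂ) * Complex.exp (Complex.I * t * v) := by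
    fun_prop
  rw [← intervalIntegral.integral_add_adjacent_intervals (b := 0) (hc.intervalIntegrable _ _)
    (hc.intervalIntegrable _ _)]
  have h1 : ∫ t in (-1:ℝ)..0, ((1 - |t| : ℝ) : ℂ) * Complex.exp (Complex.I * t * v) =
      ∫ t in (0:ℝ)..1, ((1 - |t| : ℝ) : ℂ) * Complex.exp (-(Complex.I * t * v)) := by
    have := intervalIntegral.integral_comp_neg (a := 0) (b := 1)
      (fun t : ℝ => ((1 - |t| : ℝ) : ℂ) * Complex.exp (Complex.I * t * v))
    simp only [neg_zero] at this
    rw [← this]
    refine intervalIntegral.integral_congr fun t _ => ?_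
    simp
  rw [h1, ← intervalIntegral.integral_add]
  · have h2 : ∫ t in (0:ℝ)..1, (((1 - |t| : ℝ) : ℂ) * Complex.exp (-(Complex.I * t * v)) +
        ((1 - |t| : ℝ) : ℂ) * Complex.exp (Complex.I * t * v)) =
        ∫ t in (0:ℝ)..1, ((2 * ((1 - t) * Real.cos (t * v)) : ℝ) : ℂ) := by
      refine intervalIntegral.integral_congr fun t ht => ?_
      rw [uIcc_of_le zero_le_one] at ht
      simp only [abs_of_nonneg ht.1]
      push_cast
      rw [Complex.cos]
      have : Complex.I * t * v = (t * v) * Complex.I := by ring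
      rw [this]
      rw [show -((t:ℂ) * v * Complex.I) = -(t * v) * Complex.I by ring]
      ring
    rw [h2, intervalIntegral.integral_ofReal, intervalIntegral.integral_const_mul,
      integral_cos_mul hv]
    unfold K
    congr 1
    ring
  · apply Continuous.intervalIntegrable
    fun_prop
  · exact hc.intervalIntegrable _ _

end Pool.Agent.Common_PNT
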