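import Pool.Agent.Common_PNT.WienerIkehara

/-! The prime number theorem (also for arithmetic progressions), in several forms. -/

open MeasureTheory Set Filter Topology Real ArithmeticFunction ArithmeticFunction.vonMangoldt
open scoped Chebyshev

namespace Pool.Agent.Common_PNT

/-- PNT for arithmetic progressions, von Mangoldt form. -/
theorem tendsto_psi_residueClass {q : ℕ} [NeZero q] {a : ZMod q} (ha : IsUnit a) :
    Tendsto (fun x : ℝ => (∑ k ∈ Finset.Icc 1 ⌊x⌋₊, residueClass a k) / x) atTop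
      (𝓝 ((q.totient : ℝ)⁻¹)) := by
  refine wienerIkehara (residueClass_nonneg a) (C := Real.log 4 + 4) (A := (q.totient : ℝ)⁻¹)
    (G := LFunctionResidueClassAux a) ?_ (continuousOn_LFunctionResidueClassAux a) ?_
  · intro n
    have h1 := Chebyshev.psi_le_const_mul_self (x := (n:ℝ)) (Nat.cast_nonneg n)
    refine le_trans ?_ h1
    rw [Chebyshev.psi, Nat.floor_natCast]
    have : Finset.Icc 1 n = Finset.Ioc 0 n := by
      ext k; simp [Nat.succ_le_iff]
    rw [this]
    exact Finset.sum_le_sum fun k _ => residueClass_le a k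
  · intro s hs
    have h1 := eqOn_LFunctionResidueClassAux ha hs
    rw [h1]
    simp

/-- PNT, `ψ(x) ~ x`. -/
theorem tendsto_psi_div : Tendsto (fun x : ℝ => Chebyshev.psi x / x) atTop (𝓝 1) := by
  have h := tendsto_psi_residueClass (q := 1) (a := (1 : ZMod 1)) isUnit_one
  simp only [Nat.totient_one, Nat.cast_one, inv_one] at h
  refine h.congr fun x => ?_
  congr 1
  rw [Chebyshev.psi]
  have : Finset.Icc 1 ⌊x⌋₊ = Finset.Ioc 0 ⌊x⌋₊ := by
    ext k; simp [Nat.succ_le_iff]
  rw [this]
  refine Finset.sum_congr rfl fun k _ => ?_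
  rw [residueClass, indicator_of_mem]
  show ((k : ZMod 1)) = 1
  exact Subsingleton.elim _ _

/-- PNT, `θ(x) ~ x`. -/
theorem tendsto_theta_div : Tendsto (fun x : ℝ => Chebyshev.theta x / x) atTop (𝓝 1) := by
  obtain ⟨C, hC⟩ := Chebyshev.psi_sub_theta_le_mul_sqrt
  have h1 : Tendsto (fun x : ℝ => C * (1 / √x)) atTop (𝓝 0) := by
    have : Tendsto (fun x : ℝ => 1 / √x) atTop (𝓝 0) := by
      simp_rw [one_div]
      exact tendsto_inv_atTop_zero.comp Real.tendsto_sqrt_atTop
    simpa using this.const_mul C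
  have h2 : Tendsto (fun x : ℝ => (Chebyshev.psi x - Chebyshev.theta x) / x) atTop (𝓝 0) := by
    refine squeeze_zero' ?_ ?_ h1
    · filter_upwards [eventually_gt_atTop 0] with x hx
      exact div_nonneg (sub_nonneg.mpr (Chebyshev.theta_le_psi x)) hx.le
    · filter_upwards [eventually_gt_atTop 0] with x hx
      rw [div_le_iff₀ hx]
      refine (hC x).trans (le_of_eq ?_)
      have hs : √x ≠ 0 := (Real.sqrt_pos.mpr hx).ne'
      have hx2 : x = √x * √x := (Real.mul_self_sqrt hx.le).symm
      calc C * √x = C * (1 / √x) * (√x * √x) := by field_simp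
        _ = C * (1 / √x) * x := by rw [← hx2]
  have h3 := tendsto_psi_div.sub h2
  rw [sub_zero] at h3
  refine h3.congr fun x => ?_
  ring

/-- PNT, `π(x) ~ x / log x`. -/
theorem tendsto_primeCounting : Tendsto (fun x : ℝ => (Nat.primeCounting ⌊x⌋₊ : ℝ) / (x / Real.log x))
    atTop (𝓝 1) := by
  have h1 := Chebyshev.integral_theta_div_log_sq_isLittleO.tendsto_div_nhds_zero
  have h2 := tendsto_theta_div.add h1
  rw [add_zero] at h2
  refine h2.congr' ?_
  filter_upwards [eventually_ge_atTop 2] with x hx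
  rw [Chebyshev.primeCounting_eq_theta_div_log_add_integral hx, add_div]
  congr 1
  have hx0 : x ≠ 0 := by linarith
  have hl : Real.log x ≠ 0 := (Real.log_pos (by linarith)).ne'
  field_simp

/-- Primes in `(x, (1+ε)x]` for all large `x`. -/
theorem eventually_exists_prime (ε : ℝ) (hε : 0 < ε) :
    ∀ᶠ x : ℝ in atTop, ∃ p : ℕ, p.Prime ∧ x < p ∧ (p : ℝ) ≤ (1 + ε) * x := by
  have h1 : Tendsto (fun x : ℝ => (1 + ε) * x) atTop atTop :=
    tendsto_id.const_mul_atTop (by linarith)
  have h2 := (tendsto_theta_div.comp h1).eventually (lt_mem_nhds (show 1 - ε / (4 + 4 * ε) < (1:ℝ) by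
    have : 0 < ε / (4 + 4 * ε) := by positivity
    linarith))
  have h3 := tendsto_theta_div.eventually (gt_mem_nhds (show (1:ℝ) < 1 + ε / 4 by linarith))
  filter_upwards [h2, h3, eventually_gt_atTop 0] with x hx1 hx2 hx0
  by_contra hcon
  push Not at hcon
  have hle : Chebyshev.theta ((1 + ε) * x) ≤ Chebyshev.theta x := by
    rw [Chebyshev.theta, Chebyshev.theta]
    apply Finset.sum_le_sum_of_subset_of_nonneg
    · intro p hp
      simp only [Finset.mem_filter, Finset.mem_Ioc] at hp ⊢
      refine ⟨⟨hp.1.1, ?_⟩, hp.2⟩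
      by_contra hlt
      have hlt' : x < p := by
        by_contra h
        exact hlt (Nat.le_floor (not_lt.mp h))
      have := hcon p hp.2 hlt'
      have h4 : (p : ℝ) ≤ (1 + ε) * x := (Nat.le_floor_iff (by positivity)).mp hp.1.2
      linarith
    · intro p hp _
      exact Real.log_nonneg (by
        simp only [Finset.mem_filter] at hp
        exact_mod_cast hp.2.one_le)
  simp only [Function.comp_apply] at hx1
  rw [lt_div_iff₀ (by positivity)] at hx1
  rw [div_lt_iff₀ hx0] at hx2
  have h5 : (1 - ε / (4 + 4 * ε)) * ((1 + ε) * x) = (1 + ε) * x - ε / 4 * x := by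
    field_simp
  rw [h5] at hx1
  nlinarith

/-- Natural number version. -/
theorem eventually_exists_prime_nat (ε : ℝ) (hε : 0 < ε) :
    ∀ᶠ n : ℕ in atTop, ∃ p : ℕ, p.Prime ∧ n < p ∧ (p : ℝ) ≤ (1 + ε) * n := by
  filter_upwards [tendsto_natCast_atTop_atTop.eventually (eventually_exists_prime ε hε)] with n hn
  obtain ⟨p, hp, h1, h2⟩ := hn
  exact ⟨p, hp, by exact_mod_cast h1, h2⟩

end Pool.Agent.Common_PNT
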