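import Pool.Agent.Common_PNT.Fejer

/-! Tauberian step of the Wiener-Ikehara theorem. -/

open MeasureTheory Set Filter Topology Real

namespace Pool.Agent.Common_PNT

/-- mass of the kernel on `[-a,a]` -/
noncomputable def kap (a : ℝ) : ℝ := ∫ v in Ioc (-a) a, K v

lemma kap_nonneg (a : ℝ) : 0 ≤ kap a := integral_nonneg fun v => K_nonneg v

lemma kap_le (a : ℝ) : kap a ≤ M :=
  setIntegral_le_integral integrable_K (Eventually.of_forall K_nonneg)

lemma tendsto_kap : Tendsto (fun n : ℕ => kap ((n:ℝ) + 1)) atTop (𝓝 M) := by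
  unfold kap M
  have h1 : Tendsto (fun n : ℕ => ((n:ℝ) + 1)) atTop atTop :=
    tendsto_atTop_add_const_right _ _ tendsto_natCast_atTop_atTop
  have h2 := intervalIntegral_tendsto_integral (μ := volume) (f := K) integrable_K
    (tendsto_neg_atTop_atBot.comp h1) h1
  refine h2.congr fun n => ?_
  rw [intervalIntegral.integral_of_le]
  · rfl
  · simp only [Function.comp_apply]
    have : (0:ℝ) ≤ n := Nat.cast_nonneg n
    linarith

lemma integral_Ioc_comp_sub (g : ℝ → ℝ) (y a : ℝ) (ha : 0 ≤ a) :
    ∫ u in Ioc (y - a) (y + a), g (y - u) = ∫ v in Ioc (-a) a, g v := by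
  rw [← intervalIntegral.integral_of_le (by linarith), ← intervalIntegral.integral_of_le (by linarith)]
  have := intervalIntegral.integral_comp_sub_left (a := y - a) (b := y + a) g y
  rw [this]
  congr 1 <;> ring

lemma tendsto_mass : Tendsto (fun y : ℝ => ∫ u in Ioi (0:ℝ), K (y - u)) atTop (𝓝 M) := by
  have h1 : ∀ y : ℝ, ∫ u in Ioi (0:ℝ), K (y - u) = ∫ v in Iio y, K v := by
    intro y
    rw [← integral_indicator measurableSet_Ioi, ← integral_indicator measurableSet_Iio]
    rw [← integral_sub_left_eq_self (fun v => (Iio y).indicator K v) volume y]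
    refine integral_congr_ae (Eventually.of_forall fun u => ?_)
    simp only [indicator, mem_Ioi, mem_Iio, sub_lt_self_iff]
  simp_rw [h1]
  unfold M
  have h2 : ∀ y : ℝ, ∫ v in Iio y, K v = ∫ v in Iic y, K v := fun y =>
    (integral_Iic_eq_integral_Iio).symm
  simp_rw [h2]
  exact (aecover_Iic tendsto_id).integral_tendsto_of_countably_generated integrable_K

/-- Tauberian step. -/
theorem tauber {S : ℝ → ℝ} (hS : Monotone S) {C : ℝ} (hS0 : ∀ x, 0 ≤ S x)
    (hSC : ∀ x, 1 ≤ x → S x ≤ C * x) {A : ℝ}
    (hlim : ∀ T : ℝ, 0 < T → Tendsto (fun y : ℝ => ∫ u in Ioi (0:ℝ),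
      (Real.exp (-(u / T)) * S (Real.exp (u / T)) - A) * K (y - u)) atTop (𝓝 0)) :
    Tendsto (fun w : ℝ => Real.exp (-w) * S (Real.exp w)) atTop (𝓝 A) := by
  set B : ℝ → ℝ := fun w => Real.exp (-w) * S (Real.exp w) with hBdef
  have hBm : Measurable B := by
    have := hS.measurable
    rw [hBdef]
    fun_prop
  have hB0 : ∀ w, 0 ≤ B w := fun w => mul_nonneg (Real.exp_pos _).le (hS0 _)
  have hBC : ∀ w, 0 ≤ w → B w ≤ C := fun w hw => by
    have h1 := hSC (Real.exp w) (Real.one_le_exp hw)
    calc B w ≤ Real.exp (-w) * (C * Real.exp w) := by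
          apply mul_le_mul_of_nonneg_left h1 (Real.exp_pos _).le
      _ = C * (Real.exp (-w) * Real.exp w) := by ring
      _ = C := by rw [← Real.exp_add]; simp
  have hC0 : 0 ≤ C := (hB0 0).trans (hBC 0 le_rfl)
  have hMpos := M_pos
  have hint : ∀ T : ℝ, 0 < T → ∀ y, IntegrableOn (fun u => B (u / T) * K (y - u)) (Ioi 0) := by
    intro T hT y
    have : IntegrableOn (fun u => C * K (y - u)) (Ioi (0:ℝ)) :=
      ((integrable_K.comp_sub_left y).const_mul C).integrableOn
    refine Integrable.mono' this ?_ ?_
    · have := measurable_K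
      apply Measurable.aestronglyMeasurable
      fun_prop
    · filter_upwards [ae_restrict_mem measurableSet_Ioi] with u hu
      rw [norm_mul, Real.norm_of_nonneg (hB0 _), Real.norm_of_nonneg (K_nonneg _)]
      exact mul_le_mul_of_nonneg_right (hBC _ (div_pos hu hT).le) (K_nonneg _)
  -- the integral of B against K tends to A * M
  have hlim2 : ∀ T : ℝ, 0 < T → Tendsto (fun y : ℝ => ∫ u in Ioi (0:ℝ), B (u / T) * K (y - u))
      atTop (𝓝 (A * M)) := by
    intro T hT
    have h1 := (hlim T hT).add (tendsto_mass.const_mul A)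
    rw [zero_add] at h1
    refine h1.congr fun y => ?_
    rw [← integral_const_mul, ← integral_add]
    · refine integral_congr_ae (Eventually.of_forall fun u => ?_)
      simp only [hBdef]
      ring
    · have e1 : (fun u => (Real.exp (-(u / T)) * S (Real.exp (u / T)) - A) * K (y - u)) =
          fun u => B (u / T) * K (y - u) - A * K (y - u) := by
        funext u
        simp only [hBdef]
        ring
      rw [e1]
      exact (hint T hT y).sub ((integrable_K.comp_sub_left y).const_mul A).integrableOn
    · exact ((integrable_K.comp_sub_left y).const_mul A).integrableOn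
  -- comparison of values of B
  have hcomp : ∀ T a u v : ℝ, 0 < T → u ≤ v → v - u ≤ 2 * a →
      Real.exp (-(2 * a / T)) * B (u / T) ≤ B (v / T) := by
    intro T a u v hT huv hva
    simp only [hBdef]
    have h1 : S (Real.exp (u / T)) ≤ S (Real.exp (v / T)) := hS (by gcongr)
    have h2 : Real.exp (-(2 * a / T)) * Real.exp (-(u / T)) ≤ Real.exp (-(v / T)) := by
      rw [← Real.exp_add]
      apply Real.exp_le_exp.mpr
      have : v / T ≤ 2 * a / T + u / T := by
        rw [← add_div]
        gcongr
        linarith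
      linarith
    calc Real.exp (-(2 * a / T)) * (Real.exp (-(u / T)) * S (Real.exp (u / T)))
        = (Real.exp (-(2 * a / T)) * Real.exp (-(u / T))) * S (Real.exp (u / T)) := by ring
      _ ≤ Real.exp (-(v / T)) * S (Real.exp (v / T)) := by
          apply mul_le_mul h2 h1 (hS0 _) (Real.exp_pos _).le
  -- upper bound
  have hupper : ∀ T a η : ℝ, 0 < T → 0 < a → 0 < kap a → 0 < η →
      ∀ᶠ w in atTop, B w ≤ (A * M + η) * Real.exp (2 * a / T) / kap a := by
    intro T a η hT ha hk hη
    have h1 : ∀ᶠ y in atTop, ∫ u in Ioi (0:ℝ), B (u / T) * K (y - u) ≤ A * M + η :=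
      ((hlim2 T hT).eventually (gt_mem_nhds (show A * M < A * M + η by linarith))).mono
        fun y hy => hy.le
    have h2 : Tendsto (fun w : ℝ => T * w + a) atTop atTop :=
      tendsto_atTop_add_const_right _ _ (tendsto_id.const_mul_atTop hT)
    filter_upwards [h2.eventually h1, h2.eventually (eventually_gt_atTop (2 * a))] with w hw hw2
    set y := T * w + a with hy
    have h3 : ∫ u in Ioc (y - a) (y + a), B (u / T) * K (y - u) ≤
        ∫ u in Ioi (0:ℝ), B (u / T) * K (y - u) := by
      apply setIntegral_mono_set (hint T hT y)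
      · exact Eventually.of_forall fun u => mul_nonneg (hB0 _) (K_nonneg _)
      · refine Eventually.of_forall fun u hu => ?_
        have := hu.1
        show (0:ℝ) < u
        linarith
    have h4 : ∫ u in Ioc (y - a) (y + a), (Real.exp (-(2 * a / T)) * B w) * K (y - u) ≤
        ∫ u in Ioc (y - a) (y + a), B (u / T) * K (y - u) := by
      apply setIntegral_mono_on
      · exact ((integrable_K.comp_sub_left y).const_mul _).integrableOn
      · apply (hint T hT y).mono_set
        intro u hu
        have := hu.1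
        simp only [mem_Ioi]
        linarith
      · exact measurableSet_Ioc
      · intro u hu
        apply mul_le_mul_of_nonneg_right _ (K_nonneg _)
        have h5 := hcomp T a (y - a) u hT hu.1.le (by linarith [hu.2])
        have h6 : (y - a) / T = w := by
          rw [hy]; field_simp; ring
        rwa [h6] at h5
    rw [integral_const_mul, integral_Ioc_comp_sub K y a ha.le] at h4
    change Real.exp (-(2 * a / T)) * B w * kap a ≤ _ at h4
    have h7 : Real.exp (-(2 * a / T)) * B w * kap a ≤ A * M + η := h4.trans (h3.trans hw)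
    rw [le_div_iff₀ hk]
    have h8 : B w * kap a = Real.exp (2 * a / T) * (Real.exp (-(2 * a / T)) * B w * kap a) := by
      have : Real.exp (2 * a / T) * Real.exp (-(2 * a / T)) = 1 := by
        rw [← Real.exp_add]; simp
      calc B w * kap a = 1 * (B w * kap a) := by ring
        _ = (Real.exp (2 * a / T) * Real.exp (-(2 * a / T))) * (B w * kap a) := by rw [this]
        _ = _ := by ring
    rw [h8, mul_comm (A * M + η)]
    exact mul_le_mul_of_nonneg_left h7 (Real.exp_pos _).le
  -- lower bound
  have hlower : ∀ T a η : ℝ, 0 < T → 0 < a → 0 < kap a → 0 < η →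
      ∀ᶠ w in atTop, (A * M - η - C * (M - kap a)) * Real.exp (-(2 * a / T)) / kap a ≤ B w := by
    intro T a η hT ha hk hη
    have h1 : ∀ᶠ y in atTop, A * M - η ≤ ∫ u in Ioi (0:ℝ), B (u / T) * K (y - u) :=
      ((hlim2 T hT).eventually (lt_mem_nhds (show A * M - η < A * M by linarith))).mono
        fun y hy => hy.le
    have h2 : Tendsto (fun w : ℝ => T * w - a) atTop atTop :=
      tendsto_atTop_add_const_right _ _ (tendsto_id.const_mul_atTop hT)
    filter_upwards [h2.eventually h1, h2.eventually (eventually_gt_atTop (2 * a))] with w hw hw2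
    set y := T * w - a with hy
    have hsub : Ioc (y - a) (y + a) ⊆ Ioi (0:ℝ) := by
      intro u hu
      have := hu.1
      simp only [mem_Ioi]
      linarith
    have h3 : ∫ u in Ioi (0:ℝ), B (u / T) * K (y - u) =
        (∫ u in Ioc (y - a) (y + a), B (u / T) * K (y - u)) +
        ∫ u in Ioi (0:ℝ) \ Ioc (y - a) (y + a), B (u / T) * K (y - u) := by
      rw [← setIntegral_union disjoint_sdiff_right (measurableSet_Ioi.diff measurableSet_Ioc)
        ((hint T hT y).mono_set hsub) ((hint T hT y).mono_set sdiff_subset),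
        union_sdiff_cancel hsub]
    have h4 : ∫ u in Ioc (y - a) (y + a), B (u / T) * K (y - u) ≤
        ∫ u in Ioc (y - a) (y + a), (Real.exp (2 * a / T) * B w) * K (y - u) := by
      apply setIntegral_mono_on ((hint T hT y).mono_set hsub)
      · exact ((integrable_K.comp_sub_left y).const_mul _).integrableOn
      · exact measurableSet_Ioc
      · intro u hu
        apply mul_le_mul_of_nonneg_right _ (K_nonneg _)
        have h5 := hcomp T a u (y + a) hT hu.2 (by linarith [hu.1])
        have h6 : (y + a) / T = w := by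
          rw [hy]; field_simp; ring
        rw [h6] at h5
        have : Real.exp (2 * a / T) * Real.exp (-(2 * a / T)) = 1 := by
          rw [← Real.exp_add]; simp
        calc B (u / T) = (Real.exp (2 * a / T) * Real.exp (-(2 * a / T))) * B (u / T) := by
              rw [this, one_mul]
          _ = Real.exp (2 * a / T) * (Real.exp (-(2 * a / T)) * B (u / T)) := by ring
          _ ≤ _ := mul_le_mul_of_nonneg_left h5 (Real.exp_pos _).le
    have h5 : ∫ u in Ioi (0:ℝ) \ Ioc (y - a) (y + a), B (u / T) * K (y - u) ≤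
        C * (M - kap a) := by
      have h6 : ∫ u in Ioi (0:ℝ) \ Ioc (y - a) (y + a), B (u / T) * K (y - u) ≤
          ∫ u in Ioi (0:ℝ) \ Ioc (y - a) (y + a), C * K (y - u) := by
        apply setIntegral_mono_on ((hint T hT y).mono_set sdiff_subset)
        · exact ((integrable_K.comp_sub_left y).const_mul _).integrableOn
        · exact measurableSet_Ioi.diff measurableSet_Ioc
        · intro u hu
          exact mul_le_mul_of_nonneg_right (hBC _ (div_pos hu.1 hT).le) (K_nonneg _)
      have h7 : ∫ u in Ioi (0:ℝ) \ Ioc (y - a) (y + a), C * K (y - u) ≤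
          ∫ u in (Ioc (y - a) (y + a))ᶜ, C * K (y - u) := by
        apply setIntegral_mono_set
        · exact ((integrable_K.comp_sub_left y).const_mul _).integrableOn
        · exact Eventually.of_forall fun u => mul_nonneg hC0 (K_nonneg _)
        · exact Eventually.of_forall fun u hu => hu.2
      have h8 : ∫ u in (Ioc (y - a) (y + a))ᶜ, C * K (y - u) = C * (M - kap a) := by
        have h9 := integral_add_compl (μ := volume) (measurableSet_Ioc (a := y - a) (b := y + a))
          ((integrable_K.comp_sub_left y).const_mul C)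
        rw [integral_const_mul, integral_Ioc_comp_sub K y a ha.le, integral_const_mul C (fun u => K (y - u)),
          integral_const_mul C (fun u => K (y - u)), integral_sub_left_eq_self K volume y] at h9
        rw [integral_const_mul]
        change C * kap a + _ = C * M at h9
        linarith
      linarith
    rw [integral_const_mul, integral_Ioc_comp_sub K y a ha.le] at h4
    change _ ≤ Real.exp (2 * a / T) * B w * kap a at h4
    have h7 : A * M - η - C * (M - kap a) ≤ Real.exp (2 * a / T) * B w * kap a := by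
      linarith
    rw [div_le_iff₀ hk]
    calc (A * M - η - C * (M - kap a)) * Real.exp (-(2 * a / T))
        ≤ (Real.exp (2 * a / T) * B w * kap a) * Real.exp (-(2 * a / T)) :=
          mul_le_mul_of_nonneg_right h7 (Real.exp_pos _).le
      _ = (Real.exp (2 * a / T) * Real.exp (-(2 * a / T))) * (B w * kap a) := by ring
      _ = B w * kap a := by rw [← Real.exp_add]; simp
  -- sequences
  have hn1 : Tendsto (fun n : ℕ => 1 / ((n:ℝ) + 1)) atTop (𝓝 0) := tendsto_one_div_add_atTop_nhds_zero_nat
  have hTa : ∀ n : ℕ, 2 * ((n:ℝ) + 1) / ((n:ℝ) + 1) ^ 2 = 2 * (1 / ((n:ℝ) + 1)) := by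
    intro n
    have : (n:ℝ) + 1 ≠ 0 := by positivity
    field_simp
  have hkpos : ∀ᶠ n : ℕ in atTop, 0 < kap ((n:ℝ) + 1) :=
    tendsto_kap.eventually (lt_mem_nhds M_pos)
  have hU : Tendsto (fun n : ℕ => (A * M + 1 / ((n:ℝ) + 1)) *
      Real.exp (2 * ((n:ℝ) + 1) / ((n:ℝ) + 1) ^ 2) / kap ((n:ℝ) + 1)) atTop (𝓝 A) := by
    have h1 : Tendsto (fun n : ℕ => Real.exp (2 * ((n:ℝ) + 1) / ((n:ℝ) + 1) ^ 2)) atTop (𝓝 1) := by
      simp_rw [hTa]
      have := (Real.continuous_exp.tendsto 0).comp (by simpa using hn1.const_mul 2)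
      simpa [Function.comp_def] using this
    have h2 := ((hn1.const_add (A * M)).mul h1).div tendsto_kap M_pos.ne'
    have h3 : (A * M + 0) * 1 / M = A := by rw [add_zero, mul_one, mul_div_assoc, div_self M_pos.ne', mul_one]
    rw [h3] at h2
    exact h2
  have hL : Tendsto (fun n : ℕ => (A * M - 1 / ((n:ℝ) + 1) - C * (M - kap ((n:ℝ) + 1))) *
      Real.exp (-(2 * ((n:ℝ) + 1) / ((n:ℝ) + 1) ^ 2)) / kap ((n:ℝ) + 1)) atTop (𝓝 A) := by
    have h1 : Tendsto (fun n : ℕ => Real.exp (-(2 * ((n:ℝ) + 1) / ((n:ℝ) + 1) ^ 2))) atTop (𝓝 1) := by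
      simp_rw [hTa]
      have := (Real.continuous_exp.tendsto 0).comp (by simpa using (hn1.const_mul 2).neg)
      simpa [Function.comp_def] using this
    have h3 : Tendsto (fun n : ℕ => C * (M - kap ((n:ℝ) + 1))) atTop (𝓝 0) := by
      simpa using (tendsto_kap.const_sub M).const_mul C
    have h2 := (((hn1.const_sub (A * M)).sub h3).mul h1).div tendsto_kap M_pos.ne'
    have h4 : (A * M - 0 - 0) * 1 / M = A := by
      rw [sub_zero, sub_zero, mul_one, mul_div_assoc, div_self M_pos.ne', mul_one]
    rw [h4] at h2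
    exact h2
  rw [Metric.tendsto_nhds]
  intro δ hδ
  have e1 := hU.eventually (gt_mem_nhds (show A < A + δ by linarith))
  have e2 := hL.eventually (lt_mem_nhds (show A - δ < A by linarith))
  obtain ⟨n, hn, hk, hn2⟩ := (e1.and (hkpos.and e2)).exists
  have hp : (0:ℝ) < (n:ℝ) + 1 := by positivity
  filter_upwards [hupper (((n:ℝ) + 1) ^ 2) ((n:ℝ) + 1) (1 / ((n:ℝ) + 1)) (by positivity) hp hk
    (by positivity), hlower (((n:ℝ) + 1) ^ 2) ((n:ℝ) + 1) (1 / ((n:ℝ) + 1)) (by positivity) hp hk
    (by positivity)] with w h1 h2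
  rw [Real.dist_eq, abs_lt]
  constructor <;> linarith

end Pool.Agent.Common_PNT
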