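import Pool.Agent.Common_PNT.Tauber

/-! The Wiener-Ikehara theorem for nonnegative sequences with partial sums `O(n)`. -/

open MeasureTheory Set Filter Topology Real

namespace Pool.Agent.Common_PNT

/-- Summatory function. -/
noncomputable def Ssum (a : ℕ → ℝ) (x : ℝ) : ℝ := ∑ k ∈ Finset.Icc 1 ⌊x⌋₊, a k

lemma Ssum_mono {a : ℕ → ℝ} (ha : ∀ n, 0 ≤ a n) : Monotone (Ssum a) := by
  intro x y hxy
  unfold Ssum
  apply Finset.sum_le_sum_of_subset_of_nonneg
  · exact Finset.Icc_subset_Icc le_rfl (Nat.floor_mono hxy)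
  · intro i _ _
    exact ha i

lemma Ssum_nonneg {a : ℕ → ℝ} (ha : ∀ n, 0 ≤ a n) (x : ℝ) : 0 ≤ Ssum a x :=
  Finset.sum_nonneg fun i _ => ha i

lemma laplace_eq {a : ℕ → ℝ} (ha : ∀ n, 0 ≤ a n) {C : ℝ}
    (hC : ∀ n : ℕ, ∑ k ∈ Finset.Icc 1 n, a k ≤ C * n) {s : ℂ} (hs : 0 < s.re) :
    LSeries (fun n => (a n : ℂ)) (1 + s) = (1 + s) *
      ∫ u in Ioi (0:ℝ), ((Real.exp (-u) * Ssum a (Real.exp u) : ℝ) : ℂ) * Complex.exp (-s * u) := by
  have h1 := LSeries_eq_mul_integral_of_nonneg a (r := 1) zero_le_one (s := 1 + s) (by simpa using hs) ?_ ha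
  · rw [h1]
    congr 1
    have h2 := integral_comp_exp_Ioi (fun t : ℝ => (∑ k ∈ Finset.Icc 1 ⌊t⌋₊, (a k : ℂ)) *
      (t : ℂ) ^ (-(1 + s + 1))) 0
    rw [Real.exp_zero] at h2
    rw [← h2]
    refine integral_congr_ae (Eventually.of_forall fun u => ?_)
    simp only
    have h3 : ((Real.exp u : ℝ) : ℂ) ^ (-(1 + s + 1)) = Complex.exp (-(1 + s + 1) * u) := by
      rw [Complex.cpow_def_of_ne_zero (by exact_mod_cast (Real.exp_pos u).ne'),
        ← Complex.ofReal_log (Real.exp_pos u).le, Real.log_exp]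
      ring_nf
    rw [h3]
    unfold Ssum
    push_cast
    rw [Complex.real_smul]
    have h4 : ((Real.exp u : ℝ) : ℂ) * Complex.exp (-(1 + s + 1) * u) =
        Complex.exp (-(u:ℂ)) * Complex.exp (-s * u) := by
      rw [Complex.ofReal_exp, ← Complex.exp_add, ← Complex.exp_add]
      congr 1
      ring
    calc ((Real.exp u : ℝ) : ℂ) * ((∑ k ∈ Finset.Icc 1 ⌊Real.exp u⌋₊, (a k : ℂ)) *
          Complex.exp (-(1 + s + 1) * u))
        = (∑ k ∈ Finset.Icc 1 ⌊Real.exp u⌋₊, (a k : ℂ)) *
          (((Real.exp u : ℝ) : ℂ) * Complex.exp (-(1 + s + 1) * u)) := by ring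
      _ = _ := by rw [h4]; ring
  · rw [Asymptotics.isBigO_iff]
    refine ⟨C, Eventually.of_forall fun n => ?_⟩
    rw [Real.norm_of_nonneg (Finset.sum_nonneg fun i _ => ha i), Real.rpow_one,
      Real.norm_of_nonneg (Nat.cast_nonneg n)]
    exact hC n

/-- Wiener-Ikehara. -/
theorem wienerIkehara {a : ℕ → ℝ} (ha : ∀ n, 0 ≤ a n) {C : ℝ}
    (hC : ∀ n : ℕ, ∑ k ∈ Finset.Icc 1 n, a k ≤ C * n) {A : ℝ} {G : ℂ → ℂ}
    (hG : ContinuousOn G {s | 1 ≤ s.re})
    (hEq : ∀ s : ℂ, 1 < s.re → G s = LSeries (fun n => (a n : ℂ)) s - A / (s - 1)) :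
    Tendsto (fun x : ℝ => (∑ k ∈ Finset.Icc 1 ⌊x⌋₊, a k) / x) atTop (𝓝 A) := by
  have hC0 : 0 ≤ C := by
    have h1 := hC 1
    have h2 : 0 ≤ ∑ k ∈ Finset.Icc 1 1, a k := Finset.sum_nonneg fun i _ => ha i
    simpa using h2.trans h1
  have hSC : ∀ x, 1 ≤ x → Ssum a x ≤ C * x := fun x hx => by
    refine (hC ⌊x⌋₊).trans ?_
    exact mul_le_mul_of_nonneg_left (Nat.floor_le (by linarith)) hC0
  have hmeas : Measurable (fun u : ℝ => Real.exp (-u) * Ssum a (Real.exp u) - A) := by
    have := (Ssum_mono ha).measurable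
    fun_prop
  have hbound : ∀ u : ℝ, |Real.exp (-u) * Ssum a (Real.exp u) - A| ≤ C + |A| := by
    intro u
    have h0 : 0 ≤ Real.exp (-u) * Ssum a (Real.exp u) :=
      mul_nonneg (Real.exp_pos _).le (Ssum_nonneg ha _)
    have h1 : Real.exp (-u) * Ssum a (Real.exp u) ≤ C := by
      rcases le_or_gt 0 u with hu | hu
      · calc Real.exp (-u) * Ssum a (Real.exp u) ≤ Real.exp (-u) * (C * Real.exp u) := by
              apply mul_le_mul_of_nonneg_left (hSC _ (Real.one_le_exp hu)) (Real.exp_pos _).le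
          _ = C * (Real.exp (-u) * Real.exp u) := by ring
          _ = C := by rw [← Real.exp_add]; simp
      · have : Ssum a (Real.exp u) = 0 := by
          unfold Ssum
          have : ⌊Real.exp u⌋₊ = 0 := Nat.floor_eq_zero.mpr (Real.exp_lt_one_iff.mpr hu)
          simp [this]
        rw [this, mul_zero]
        exact hC0
    calc |Real.exp (-u) * Ssum a (Real.exp u) - A| ≤ |Real.exp (-u) * Ssum a (Real.exp u)| + |A| :=
          abs_sub _ _
      _ ≤ C + |A| := by rw [abs_of_nonneg h0]; linarith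
  -- the Laplace transform
  have hLap : ∀ s : ℂ, 0 < s.re →
      ∫ u in Ioi (0:ℝ), ((Real.exp (-u) * Ssum a (Real.exp u) - A : ℝ) : ℂ) * Complex.exp (-s * u) =
        (G (1 + s) - A) / (1 + s) := by
    intro s hs
    have hs1 : (1 + s) ≠ 0 := by
      intro h
      have := congrArg Complex.re h
      simp at this
      linarith
    have hs0 : s ≠ 0 := by
      rintro rfl
      simp at hs
    have hi : ∀ (g : ℝ → ℝ), Measurable g → (∃ D, ∀ u, |g u| ≤ D) →
        IntegrableOn (fun u : ℝ => (g u : ℂ) * Complex.exp (-s * u)) (Ioi 0) := by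
      rintro g hg ⟨D, hD⟩
      have h1 : IntegrableOn (fun u : ℝ => D * Real.exp (-s.re * u)) (Ioi 0) :=
        (integrableOn_exp_mul_Ioi (a := -s.re) (by linarith) 0).const_mul D
      refine Integrable.mono' h1 ?_ (Eventually.of_forall fun u => ?_)
      · apply Measurable.aestronglyMeasurable
        fun_prop
      · rw [norm_mul, Complex.norm_real, Complex.norm_exp]
        simp only [Complex.mul_re, Complex.neg_re, Complex.ofReal_re, Complex.neg_im,
          Complex.ofReal_im, mul_zero, sub_zero]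
        exact mul_le_mul_of_nonneg_right (hD u) (Real.exp_pos _).le
    have hA : ∫ u in Ioi (0:ℝ), ((A : ℝ) : ℂ) * Complex.exp (-s * u) = A / s := by
      rw [integral_const_mul, integral_exp_mul_complex_Ioi (by simpa using hs)]
      simp
      field_simp
    have h1 := laplace_eq ha hC hs
    have h2 : ∫ u in Ioi (0:ℝ), ((Real.exp (-u) * Ssum a (Real.exp u) - A : ℝ) : ℂ) *
        Complex.exp (-s * u) = (∫ u in Ioi (0:ℝ), ((Real.exp (-u) * Ssum a (Real.exp u) : ℝ) : ℂ) *
        Complex.exp (-s * u)) - ∫ u in Ioi (0:ℝ), ((A : ℝ) : ℂ) * Complex.exp (-s * u) := by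
      rw [← integral_sub]
      · refine integral_congr_ae (Eventually.of_forall fun u => ?_)
        simp only
        push_cast
        ring
      · apply hi (fun u => Real.exp (-u) * Ssum a (Real.exp u))
        · have := (Ssum_mono ha).measurable
          fun_prop
        · refine ⟨C + |A| + |A|, fun u => ?_⟩
          have := hbound u
          calc |Real.exp (-u) * Ssum a (Real.exp u)|
              = |(Real.exp (-u) * Ssum a (Real.exp u) - A) + A| := by ring_nf
            _ ≤ |Real.exp (-u) * Ssum a (Real.exp u) - A| + |A| := abs_add_le _ _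
            _ ≤ _ := by linarith
      · exact hi (fun _ => A) measurable_const ⟨|A|, fun _ => le_rfl⟩
    rw [h2, hA, hEq (1 + s) (by simpa using hs), h1]
    have h3 : (1 + s - 1 : ℂ) = s := by ring
    rw [h3]
    field_simp
    ring
  have hHc : ContinuousOn (fun s : ℂ => (G (1 + s) - A) / (1 + s)) {s | 0 ≤ s.re} := by
    apply ContinuousOn.div
    · apply ContinuousOn.sub _ continuousOn_const
      apply hG.comp (by fun_prop)
      intro s hs
      have : (0:ℝ) ≤ s.re := hs
      simpa using this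
    · fun_prop
    · intro s hs h
      have h1 := congrArg Complex.re h
      have : (0:ℝ) ≤ s.re := hs
      simp at h1
      linarith
  have hlim : ∀ T : ℝ, 0 < T → Tendsto (fun y : ℝ => ∫ u in Ioi (0:ℝ),
      (Real.exp (-(u / T)) * Ssum a (Real.exp (u / T)) - A) * K (y - u)) atTop (𝓝 0) := by
    intro T hT
    refine fejer_tendsto (f := fun u => Real.exp (-(u / T)) * Ssum a (Real.exp (u / T)) - A)
      (hmeas.comp (measurable_id.div_const T)) (C := C + |A|) (fun u => hbound (u / T))
      (H := fun s => T * ((G (1 + T * s) - A) / (1 + T * s))) ?_ ?_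
    · have : ContinuousOn (fun s : ℂ => (G (1 + T * s) - A) / (1 + T * s)) {s | 0 ≤ s.re} := by
        apply hHc.comp (f := fun s : ℂ => (T : ℂ) * s) (by fun_prop)
        intro s hs
        have : (0:ℝ) ≤ s.re := hs
        have h2 : 0 ≤ T * s.re := mul_nonneg hT.le this
        simpa using h2
      exact continuousOn_const.mul this
    · intro s hs
      have h1 := hLap (T * s) (by
        have : 0 < T * s.re := mul_pos hT hs
        simpa using this)
      rw [← h1]
      have h2 := integral_comp_mul_left_Ioi (fun u : ℝ => ((Real.exp (-u) * Ssum a (Real.exp u) - A : ℝ) : ℂ) *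
        Complex.exp (-(T * s) * u)) 0 (b := T⁻¹) (inv_pos.mpr hT)
      rw [mul_zero, inv_inv, Complex.real_smul] at h2
      rw [← h2]
      refine integral_congr_ae (Eventually.of_forall fun u => ?_)
      simp only
      have h3 : T⁻¹ * u = u / T := by rw [inv_mul_eq_div]
      have hT' : (T:ℂ) ≠ 0 := by exact_mod_cast hT.ne'
      rw [h3]
      congr 2
      push_cast
      field_simp
  have hT := tauber (Ssum_mono ha) (Ssum_nonneg ha) hSC hlim
  have h2 := hT.comp Real.tendsto_log_atTop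
  refine h2.congr' ?_
  filter_upwards [eventually_gt_atTop 0] with x hx
  simp only [Function.comp_apply]
  rw [Real.exp_neg, Real.exp_log hx, inv_mul_eq_div]
  rfl

end Pool.Agent.Common_PNT
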